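import Pool.Agent.H310.HD.Str

/-!
# The HOD Hypothesis is a statement about `V_δ`, `δ` extendible

Let `δ` be an extendible cardinal. The following are equivalent:
* the HOD Hypothesis: the regular cardinals that are not `ω`-strongly measurable in `HOD` form a
  proper class;
* some regular `λ ≥ δ` is not `ω`-strongly measurable in `HOD`;
* the regular `λ < δ` that are not `ω`-strongly measurable in `HOD` are unbounded in `δ`.
-/

set_option autoImplicit false

namespace Pool.Agent.Results.MP_dbe07f_lc.ExtendibleCardinals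

open Pool.Agent.H310.HD

universe u

/-- The HOD Hypothesis. -/
def HODHypothesis (b : Bool) : Prop := ∀ β : Ordinal.{u}, ∃ l > β, NotStrMeas b l

/-- **Main theorem.** `b` chooses one of the two readings of the definition (`κ < λ` an arbitrary
ordinal, or a cardinal). -/
theorem result (b : Bool) (δ : Ordinal.{u}) (hδ : Extendible δ) :
    (HODHypothesis.{u} b ↔ ∃ l ≥ δ, NotStrMeas b l) ∧
    (HODHypothesis.{u} b ↔ ∀ β < δ, ∃ l, β < l ∧ l < δ ∧ NotStrMeas b l) := by
  have h1 : (∃ l ≥ δ, NotStrMeas b l) → HODHypothesis.{u} b := by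
    rintro ⟨l, hl, hn⟩ β
    obtain ⟨l', h1, h2⟩ := hδ.above (mono_Index b) hl ((notStrMeas_iff b l).1 hn) β
    exact ⟨l', h1, (notStrMeas_iff b l').2 h2⟩
  refine ⟨⟨fun h => ?_, h1⟩, fun h β hβ => ?_, fun h => h1 ?_⟩
  · obtain ⟨l, hl, hn⟩ := h δ
    exact ⟨l, hl.le, hn⟩
  · obtain ⟨l, hl, hn⟩ := h β
    obtain ⟨l', h2, h3, h4⟩ := hδ.reflecting.below (mono_Index b) hβ hl
      ((notStrMeas_iff b l).1 hn)
    exact ⟨l', h2, h3, (notStrMeas_iff b l').2 h4⟩
  · obtain ⟨l, hl, hn⟩ := hδ.of_below (mono_Index b) fun β hβ => by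
      obtain ⟨l, h2, h3, h4⟩ := h β hβ
      exact ⟨l, h2, h3, (notStrMeas_iff b l).1 h4⟩
    exact ⟨l, hl.le, (notStrMeas_iff b l).2 hn⟩

end Pool.Agent.Results.MP_dbe07f_lc.ExtendibleCardinals
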