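import Pool.Agent.H310.HD.Chain

/-!
# The HOD Hypothesis and set parameters

Let `δ` be an extendible cardinal. For a set `p` let `HOD_p` be the class of the sets which are
hereditarily definable from ordinals and `p`. Equivalent are:
* the HOD Hypothesis;
* its version for `HOD_p`, for all sets `p`;
* its version for `HOD_p`, for some set `p`;
* for some set `p` there are arbitrarily long sequences in `HOD_p` of pairwise disjoint stationary
  subsets of regular cardinals, whose elements have cofinality at most `μ`, for some `μ < δ`;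
* for some set `p` all sufficiently large singular cardinals of cofinality `ω` are singular in
  `HOD_p`;
* all singular cardinals `γ > δ` of cofinality `ω` are singular in `HOD`.
-/

set_option autoImplicit false

namespace Pool.Agent.Results.MP_dbe07f_lc.SetParameters

open Pool.Agent.H310.HD Gss969 ZFSet

universe u

/-- The HOD Hypothesis for the class `P`: the regular cardinals which are not `ω`-strongly
measurable in `P` form a proper class. -/
def Hypothesis (b : Bool) (P : ZFSet.{u} → Prop) : Prop :=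
  ∀ β : Ordinal.{u}, ∃ l > β, NonSM (Index b) P (Ordinal.toZFSet l)

/-- For arbitrarily large `k` there are `μ < δ`, a regular cardinal `l > k` and a sequence of length
`k` in `P` of pairwise disjoint stationary subsets of `l`, all of whose elements `a` have a cofinal
function from `μ`. -/
def Families (δ : Ordinal.{u}) (P : ZFSet.{u} → Prop) : Prop :=
  ∀ k₀ : Ordinal.{u}, ∃ k ≥ k₀, ∃ μ < δ, ∃ l > k, RegUnc (Ordinal.toZFSet l) ∧
    ∃ S, P S ∧ Fam (Ordinal.toZFSet μ) (Ordinal.toZFSet k) l.toZFSet S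

/-- Every singular cardinal `γ > β` of cofinality `ω` is singular in `P`. -/
def SingOm (β : Ordinal.{u}) (P : ZFSet.{u} → Prop) : Prop :=
  ∀ γ > β, IsSing (Ordinal.toZFSet γ) → CofOm γ.toZFSet → CofinalP P γ.toZFSet

theorem result (b : Bool) (δ : Ordinal.{u}) (hδ : Extendible δ) :
    (Hypothesis.{u} b HOD ↔ ∀ β : Ordinal.{u}, ∃ l > β, NotStrMeas b l) ∧
    List.TFAE [Hypothesis.{u} b HOD,
      ∀ p : ZFSet.{u}, Hypothesis b (HODp p),
      ∃ p : ZFSet.{u}, Hypothesis b (HODp p),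
      ∃ p : ZFSet.{u}, Families δ (HODp p),
      ∃ p : ZFSet.{u}, ∃ β : Ordinal.{u}, SingOm β (HODp p),
      SingOm δ HOD] := by
  have hsing : (∀ k₀ : Ordinal.{u}, ∃ k ≥ k₀, ∃ μ < δ, ∃ l : Ordinal.{u}, RegUnc l.toZFSet ∧
      ∃ S, HOD S ∧ Fam (Ordinal.toZFSet μ) (Ordinal.toZFSet k) l.toZFSet S) →
      ∀ (b' : Bool) (P : ZFSet.{u} → Prop), (∀ x, HOD x → P x) → Hypothesis b' P := by
    intro h b' P hP β
    obtain ⟨l, hl, hr⟩ := exists_regUnc (max δ β)
    exact ⟨l, (le_max_right _ _).trans_lt hl, nonSM_of_sing hP (sing_of_fam hδ h)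
      ((le_max_left _ _).trans_lt hl) hr⟩
  have hfam : Hypothesis.{u} b HOD → ∀ k₀ : Ordinal.{u}, ∃ k ≥ k₀, ∃ μ < δ, ∃ l : Ordinal.{u},
      RegUnc l.toZFSet ∧ ∃ S, HOD S ∧ Fam (Ordinal.toZFSet μ) (Ordinal.toZFSet k) l.toZFSet S := by
    intro h k₀
    obtain ⟨k, hk, l, _, hr, S, hS, hF⟩ := fam_of_nonSM h k₀
    exact ⟨k, hk, Ordinal.omega0, hδ.om_lt, l, hr, S, hS, hF⟩
  refine ⟨?_, ?_⟩
  · constructor
    · intro h β
      obtain ⟨l, hl, h1⟩ := h β
      exact ⟨l, hl, (notStrMeas_iff b l).2 h1⟩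
    · intro h β
      obtain ⟨l, hl, h1⟩ := h β
      exact ⟨l, hl, (notStrMeas_iff b l).1 h1⟩
  · tfae_have 1 → 2 := fun h p => hsing (hfam h) b _ fun x hx => hx.hodp p
    tfae_have 2 → 3 := fun h => ⟨∅, h ∅⟩
    tfae_have 3 → 4 := by
      rintro ⟨p, h⟩
      refine ⟨p, fun k₀ => ?_⟩
      obtain ⟨k, hk, l, hl, hr, S, hS, hF⟩ := fam_of_nonSM h k₀
      exact ⟨k, hk, Ordinal.omega0, hδ.om_lt, l, hl, hr, S, hS, hF⟩
    tfae_have 4 → 1 := by
      rintro ⟨p, h⟩
      refine hsing (fun k₀ => ?_) b HOD fun x hx => hx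
      obtain ⟨ρ, hρ⟩ := exists_mem_vonNeumann p
      obtain ⟨μ, hμ, hr, hbig⟩ := exists_big k₀ ρ
      obtain ⟨k, hk, m, hm, l, hl, hrl, S, hS, hF⟩ := h μ
      obtain ⟨S', hS', hF'⟩ := fam_of_par hρ hr hbig hk (lt_of_le_of_lt hk hl) hrl hS hF
      exact ⟨μ, hμ.le, m, hm, l, hrl, S', hS', hF'⟩
    tfae_have 1 → 6 := by
      intro h γ hγ _ hc
      exact sing_of_fam hδ (hfam h) γ hγ hc
    tfae_have 6 → 5 := by
      intro h
      exact ⟨∅, δ, fun γ hγ h1 h2 => (h γ hγ h1 h2).mono fun x hx => hx.hodp ∅⟩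
    tfae_have 5 → 1 := by
      rintro ⟨p, β, h⟩
      obtain ⟨ρ, hρ⟩ := exists_mem_vonNeumann p
      obtain ⟨l, hl, hr, hlim⟩ := hδ.exists_regLim (max δ (max β (card (V_ ρ)).ord))
      have h1 : max β (card (V_ ρ)).ord < l := (le_max_right _ _).trans_lt hl
      have h2 : StatL {α | CofOm α.toZFSet ∧ CofinalP HOD α.toZFSet} l := by
        refine (statL_card hr hlim h1).mono fun γ _ h3 => ⟨h3.2.2, ?_⟩
        have hs := h3.2.1
        refine sing_of_par hρ hs.1 (tz_mem.1 hs.2.1) ?_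
          (h γ ((le_max_left _ _).trans_lt h3.1) hs h3.2.2)
        have := hs.1.card_lt ((le_max_right _ _).trans_lt h3.1)
        rwa [Cardinal.card_ord] at this
      have h4 := (notStrMeas_iff b l).1 (notStrMeas_of_sing b hr h2)
      intro β'
      exact hδ.above (mono_Index b) ((le_max_left _ _).trans hl.le) h4 β'
    tfae_finish

end Pool.Agent.Results.MP_dbe07f_lc.SetParameters
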