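import Pool.Agent.H310.HD.Equiv

/-!
# Equivalents of the HOD Hypothesis

Let `δ` be an extendible cardinal. Equivalent are the HOD Hypothesis and each of the following:
* there are arbitrarily long sequences in `HOD` of pairwise disjoint stationary subsets of regular
  cardinals, whose elements have cofinality at most `μ`, for some `μ < δ` (no covering of `cof(ω)`,
  no condition on `2^κ`);
* every ordinal of cofinality less than `δ` has cofinality less than `δ` in `HOD`, or is less than `δ`;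
* for one regular `l ≥ δ` stationary many `α < l` of cofinality `ω` are singular in `HOD`;
* this holds for unboundedly many regular `l < δ`; it holds for all regular `l > δ`;
* for all regular `l > δ` and `0 < k ≤ l` there is in `HOD` a partition of `cof(ω) ∩ l` into `k`
  stationary sets.
-/

set_option autoImplicit false

namespace Pool.Agent.Results.MP_dbe07f_lc.SplittingEquivalents

open Pool.Agent.H310.HD Gss969 ZFSet

universe u

/-- The HOD Hypothesis. -/
def HODHypothesis (b : Bool) : Prop := ∀ β : Ordinal.{u}, ∃ l > β, NotStrMeas b l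

/-- For arbitrarily large `k` there are `μ < δ`, a regular cardinal `l` and a sequence of length `k`
in `HOD` of pairwise disjoint stationary subsets of `l`, all of whose elements `a` have a cofinal
function from `μ`. -/
def Families (δ : Ordinal.{u}) : Prop :=
  ∀ k₀ : Ordinal.{u}, ∃ k ≥ k₀, ∃ μ < δ, ∃ l : Ordinal.{u}, RegUnc l.toZFSet ∧
    ∃ S, HOD S ∧ Fam μ.toZFSet (Ordinal.toZFSet k) l.toZFSet S

/-- Whenever there is a cofinal function from some `μ < δ` to `α`, there is one in `HOD` from some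
`c < δ` to `α`. -/
def Covers (δ : Ordinal.{u}) : Prop :=
  ∀ α : Ordinal.{u}, ∀ μ < δ, CofN (Ordinal.toZFSet μ) α.toZFSet →
    ∃ c < δ, ∃ g, HOD g ∧ IsFunc (Ordinal.toZFSet c) α.toZFSet g ∧
      ∀ y ∈ α.toZFSet, ∃ x ∈ (Ordinal.toZFSet c), ∃ z ∈ α.toZFSet, pair x z ∈ g ∧ y ∈ z

/-- `l` is regular and uncountable, and stationary many `α < l` of cofinality `ω` are singular in
`HOD`. -/
def ManySing (l : Ordinal.{u}) : Prop :=
  RegUnc l.toZFSet ∧ StatL {α | CofOm α.toZFSet ∧ CofinalP HOD α.toZFSet} l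

theorem result (b : Bool) (δ : Ordinal.{u}) (hδ : Extendible δ) :
    List.TFAE [HODHypothesis.{u} b,
      Families δ,
      Covers δ,
      ∃ l ≥ δ, ManySing l,
      ∀ β < δ, ∃ l, β < l ∧ l < δ ∧ ManySing l,
      ∀ l > δ, RegUnc (Ordinal.toZFSet l) → ManySing l,
      ∀ l > δ, RegUnc (Ordinal.toZFSet l) → ∀ k : Ordinal.{u}, 0 < k → k ≤ l →
        ∃ g, HOD g ∧ IsPart k.toZFSet l.toZFSet g] ∧
    ((∃ β < δ, ∀ α < δ, β < α → IsSing (Ordinal.toZFSet α) → CofOm α.toZFSet →
      CofinalP HOD α.toZFSet) → HODHypothesis.{u} b) := by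
  have hup : ∀ l ≥ δ, NotStrMeas b l → HODHypothesis.{u} b := by
    intro l hl hn β
    obtain ⟨l', h1, h2⟩ := hδ.above (mono_Index b) hl ((notStrMeas_iff b l).1 hn) β
    exact ⟨l', h1, (notStrMeas_iff b l').2 h2⟩
  have hman : ∀ l : Ordinal.{u}, ManySing l ↔ ManyP HOD l.toZFSet := fun l => manyP_iff.symm
  have h41 : (∃ l ≥ δ, ManySing l) → HODHypothesis.{u} b := by
    rintro ⟨l, hl, h⟩
    exact hup l hl (notStrMeas_of_sing b h.1 h.2)
  refine ⟨?_, ?_⟩
  · tfae_have 1 → 2 := by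
      intro h k₀
      obtain ⟨k, hk, hn⟩ := h k₀
      obtain ⟨c, hc⟩ := fewSub_large HOD k
      obtain ⟨l, hl, hn'⟩ := h (max c k)
      have hkl : k < l := (le_max_right _ _).trans_lt hl
      have hix : Index b k.toZFSet := by
        refine ⟨⟨om, hn.1.2.1, rfl⟩, fun _ => hn.1.isCard⟩
      obtain ⟨g, hg, hp⟩ := ((notStrMeas_iff b l).1 hn').2 _ (tz_mem.2 hkl) hix
        (hc l ((le_max_left _ _).trans_lt hl))
      exact ⟨k, hk.le, Ordinal.omega0, hδ.om_lt, l, hn'.1, g, hg, hp.fam (isOrdinal_toZFSet _)⟩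
    tfae_have 2 → 3 := by
      intro h α μ hμ hα
      obtain ⟨k, hk, μ', hμ', l, hl, S, hS, hF⟩ := h α
      exact cover hδ hk hμ' hl hS hF hμ hα
    tfae_have 3 → 6 := by
      intro h l hl hr
      refine ⟨hr, (statL_om hr hl).mono fun α _ hα => ⟨hα.2, ?_⟩⟩
      obtain ⟨c, hc, g, hg, hf, hcof⟩ := h α Ordinal.omega0 hδ.om_lt hα.2
      exact ⟨_, tz_mem.2 (hc.trans hα.1), g, hg, hf, hcof⟩
    tfae_have 6 → 4 := by
      intro h
      obtain ⟨l, hl, hr⟩ := exists_regUnc δ
      exact ⟨l, hl.le, h l hl hr⟩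
    tfae_have 4 → 5 := by
      rintro ⟨l, hl, h⟩ β hβ
      obtain ⟨l', h1, h2, h3⟩ := hδ.reflecting.below mono_ManyP hβ (hβ.trans_le hl) ((hman l).1 h)
      exact ⟨l', h1, h2, (hman l').2 h3⟩
    tfae_have 5 → 4 := by
      intro h
      obtain ⟨l, hl, h1⟩ := hδ.of_below mono_ManyP fun β hβ => by
        obtain ⟨l, h1, h2, h3⟩ := h β hβ
        exact ⟨l, h1, h2, (hman l).1 h3⟩
      exact ⟨l, hl.le, (hman l).2 h1⟩
    tfae_have 4 → 1 := h41
    tfae_have 6 → 7 := by
      intro h l hl hr k hk0 hk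
      exact split_of_sing (h l hl hr).1 (h l hl hr).2 hk0 hk
    tfae_have 7 → 1 := by
      intro h
      obtain ⟨l, hl, hr⟩ := exists_regUnc δ
      refine hup l hl.le ⟨hr, ?_⟩
      rintro ⟨_, k, hk, hi, _, hn⟩
      obtain ⟨k, hk', rfl⟩ := Ordinal.mem_toZFSet_iff.1 hk
      refine hn (h l hl hr k ?_ hk'.le)
      obtain ⟨⟨x, hx, _⟩, _⟩ := hi
      obtain ⟨β, hβ, _⟩ := Ordinal.mem_toZFSet_iff.1 hx
      exact bot_le.trans_lt hβ
    tfae_finish
  · rintro ⟨β, hβ, h⟩
    refine h41 ⟨δ, le_rfl, hδ.regUnc, (statL_card hδ.regUnc hδ.limCard hβ).mono fun α hα h3 =>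
      ⟨h3.2.2, h α hα h3.1 h3.2.1 h3.2.2⟩⟩

end Pool.Agent.Results.MP_dbe07f_lc.SplittingEquivalents
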