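import Pool.Agent.H310.HD.Split

/-!
# Splittings into fewer than `δ` pieces decide splittings into any number of pieces

Let `δ` be an extendible cardinal. Say that `HOD` splits `λ` into `μ` pieces if `HOD` contains a
partition of `cof(ω) ∩ λ` into `μ` stationary subsets of the regular cardinal `λ`. The following are
equivalent:
* for every `μ < δ` some `λ ≥ δ` is split into `μ` pieces;
* for every `μ < δ` the `λ < δ` which are split into `μ` pieces are unbounded in `δ`;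
* for every ordinal `μ` the `λ` which are split into `μ` pieces form a proper class.
The HOD Hypothesis implies these statements.
-/

set_option autoImplicit false

namespace Pool.Agent.Results.MP_dbe07f_lc.SplittingNumbers

open Pool.Agent.H310.HD ZFSet

universe u

/-- `HOD` contains a partition of `cof(ω) ∩ l` into `m` stationary subsets of the regular
uncountable cardinal `l`. -/
def Splits (m l : Ordinal.{u}) : Prop :=
  RegUnc l.toZFSet ∧ ∃ g, HOD g ∧ IsPart m.toZFSet l.toZFSet g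

/-- The HOD Hypothesis. -/
def HODHypothesis (b : Bool) : Prop := ∀ β : Ordinal.{u}, ∃ l > β, NotStrMeas b l

theorem result (δ : Ordinal.{u}) (hδ : Extendible δ) :
    ((∀ m < δ, 0 < m → ∃ l ≥ δ, Splits m l) ↔
      ∀ m : Ordinal.{u}, 0 < m → ∀ β : Ordinal.{u}, ∃ l > β, Splits m l) ∧
    ((∀ m < δ, 0 < m → ∀ β < δ, ∃ l, β < l ∧ l < δ ∧ Splits m l) ↔
      ∀ m : Ordinal.{u}, 0 < m → ∀ β : Ordinal.{u}, ∃ l > β, Splits m l) ∧
    (∀ b, HODHypothesis.{u} b → ∀ m : Ordinal.{u}, 0 < m → IsCard m.toZFSet →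
      ∀ β : Ordinal.{u}, ∃ l > β, Splits m l) ∧
    (HODHypothesis.{u} false → ∀ m : Ordinal.{u}, 0 < m → ∀ β : Ordinal.{u},
      ∃ l > β, Splits m l) := by
  have ne : ∀ m : Ordinal.{u}, 0 < m → ∃ x ∈ m.toZFSet, x = x := fun m hm =>
    ⟨_, Ordinal.toZFSet_mem_toZFSet_iff.2 hm, rfl⟩
  have ne' : ∀ m : Ordinal.{u}, (∃ x ∈ m.toZFSet, x = x) → 0 < m := by
    rintro m ⟨x, hx, _⟩
    obtain ⟨β, hβ, _⟩ := Ordinal.mem_toZFSet_iff.1 hx
    exact lt_of_le_of_lt (bot_le : (0 : Ordinal.{u}) ≤ β) hβ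
  have up : ∀ m l : Ordinal.{u}, Splits m l → SplitP HOD m.toZFSet l.toZFSet :=
    fun m l h => ⟨h.1, fun _ => h.2⟩
  have dn : ∀ m l : Ordinal.{u}, 0 < m → SplitP HOD m.toZFSet l.toZFSet → Splits m l :=
    fun m l hm h => ⟨h.1, h.2 (ne m hm)⟩
  have h1δ : (1 : Ordinal.{u}) < δ := by
    obtain ⟨γ, _, h2, h3⟩ := hδ.lim
    have h4 : γ = δ := vonNeumann_injective h3.symm
    rw [← h4]
    exact Ordinal.one_lt_omega0.trans h2
  have all : (∀ m < δ, 0 < m → ∀ β < δ, ∃ l > β, Splits m l) →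
      ∀ m : Ordinal.{u}, 0 < m → ∀ β : Ordinal.{u}, ∃ l > β, Splits m l := by
    intro h m hm β
    obtain ⟨l, hl, hs⟩ := hδ.all3 mono3_SplitP (fun m hm β hβ => by
      rcases (bot_le : (0 : Ordinal.{u}) ≤ m).eq_or_lt with h0 | h0
      · obtain ⟨l, hl, hs⟩ := h 1 h1δ zero_lt_one β hβ
        exact ⟨l, hl, hs.1, fun hm' => absurd (ne' m hm') (by rw [← h0]; exact lt_irrefl _)⟩
      · obtain ⟨l, hl, hs⟩ := h m hm h0 β hβ
        exact ⟨l, hl, up m l hs⟩) m β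
    exact ⟨l, hl, dn m l hm hs⟩
  have hyp : ∀ b, HODHypothesis.{u} b → ∀ m : Ordinal.{u}, Index b m.toZFSet →
      ∀ β : Ordinal.{u}, ∃ l > β, Splits m l := by
    intro b h m hm β
    obtain ⟨c, hc⟩ := fewSub_large HOD m
    obtain ⟨l, hl, hn⟩ := h (max (max β c) m)
    rw [notStrMeas_iff] at hn
    have h1 : β < l := ((le_max_left _ _).trans (le_max_left _ _)).trans_lt hl
    have h2 : c < l := ((le_max_right _ _).trans (le_max_left _ _)).trans_lt hl
    have h3 : m < l := (le_max_right _ _).trans_lt hl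
    obtain ⟨g, hg, hp⟩ := hn.2 m.toZFSet (Ordinal.toZFSet_mem_toZFSet_iff.2 h3) hm (hc l h2)
    exact ⟨l, h1, hn.1, g, hg, hp⟩
  refine ⟨⟨fun h => all fun m hm h0 β hβ => ?_, fun h m hm h0 => ?_⟩,
    ⟨fun h => all fun m hm h0 β hβ => ?_, fun h m hm h0 β hβ => ?_⟩, ?_, ?_⟩
  · obtain ⟨l, hl, hs⟩ := h m hm h0
    exact ⟨l, hβ.trans_le hl, hs⟩
  · obtain ⟨l, hl, hs⟩ := h m h0 δ
    exact ⟨l, hl.le, hs⟩
  · obtain ⟨l, hl, _, hs⟩ := h m hm h0 β hβ
    exact ⟨l, hl, hs⟩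
  · obtain ⟨l, hl, hs⟩ := h m h0 β
    obtain ⟨l', h1, h2, h3⟩ := mono3_SplitP.of_bel (hδ.below3 mono3_SplitP hm hβ hl (up m l hs))
    exact ⟨l', h1, h2, dn m l' h0 h3⟩
  · exact fun b h m h0 hm β => hyp b h m ⟨ne m h0, fun _ => hm⟩ β
  · exact fun h m h0 β => hyp false h m ⟨ne m h0, fun h => by simp at h⟩ β

end Pool.Agent.Results.MP_dbe07f_lc.SplittingNumbers
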